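import Mathlib

set_option autoImplicit false

/-!
# Shortest cycle covers and expanding vertices into triangles

The Petersen graph with every vertex replaced by a copy of the Petersen graph minus a vertex (90
vertices, 135 edges) is a 3-edge-connected cubic graph. It has a cycle cover of total length
180 = (4/3) * 135: take five even subgraphs of the Petersen graph that cover every edge twice, and
extend them into the copies. It cannot be covered by four perfect matchings: the Petersen graph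
cannot, so in each copy one of the four perfect matchings contains all three edges leaving the copy,
and each of these edges is in exactly two of the matchings; this would give a nowhere-zero 4-flow of
the Petersen graph.
-/

namespace Pool.Agent.Results.MP_961c17_co.ReplacedPetersen

open SimpleGraph Finset

variable {V : Type}

/-- every vertex has exactly three neighbours -/
def IsCubic (G : SimpleGraph V) : Prop := ∀ v, (G.neighborSet v).ncard = 3

/-- at least three edges leave every nonempty proper set of vertices -/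
def ThreeEdgeConnected (G : SimpleGraph V) : Prop :=
  ∀ X : Set V, X.Nonempty → Xᶜ.Nonempty →
    3 ≤ {e : Sym2 V | e ∈ G.edgeSet ∧ ∃ a ∈ X, ∃ b ∈ Xᶜ, e = s(a, b)}.ncard

/-- `F` is a cycle cover: a finite family of cycles such that every edge is in some member -/
def IsCycleCover (G : SimpleGraph V) (F : List (Σ u : V, G.Walk u u)) : Prop :=
  (∀ c ∈ F, c.2.IsCycle) ∧ ∀ e ∈ G.edgeSet, ∃ c ∈ F, e ∈ c.2.edges

/-- the minimum length (sum of the numbers of edges of the members) of a cycle cover -/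
noncomputable def scc (G : SimpleGraph V) : ℕ :=
  sInf {l : ℕ | ∃ F : List (Σ u : V, G.Walk u u), IsCycleCover G F ∧
    l = (F.map fun c => c.2.length).sum}

/-- the set of edges `M` is a perfect matching -/
def IsPerfectMatching (G : SimpleGraph V) (M : Set (Sym2 V)) : Prop :=
  M ⊆ G.edgeSet ∧ ∀ v : V, ∃! e : Sym2 V, e ∈ M ∧ v ∈ e

/-- some four (not necessarily distinct) perfect matchings cover all edges -/
def FourCoverable (G : SimpleGraph V) : Prop :=
  ∃ M : Fin 4 → Set (Sym2 V), (∀ i, IsPerfectMatching G (M i)) ∧ ∀ e ∈ G.edgeSet, ∃ i, e ∈ M i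

/-- the vertices of `G_U`: a vertex `(v, v)` for every `v` not in `U`, and for every `v` in `U` the
three vertices `(v, w)`, where `w` is a neighbour of `v` -/
def ExpV (G : SimpleGraph V) (U : Set V) : Type :=
  {x : V × V // (x.1 ∉ U ∧ x.2 = x.1) ∨ (x.1 ∈ U ∧ G.Adj x.1 x.2)}

/-- the graph `G_U` obtained from the cubic graph `G` by expanding every vertex in `U` into a
triangle: for `v` in `U` the three vertices `(v, w)` are joined to each other, and `(v, w)` is the
new end of the edge `v w` -/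
def expand (G : SimpleGraph V) (U : Set V) : SimpleGraph (ExpV G U) where
  Adj x y := (x.1.1 = y.1.1 ∧ x ≠ y) ∨
    (G.Adj x.1.1 y.1.1 ∧ (x.1.1 ∈ U → x.1.2 = y.1.1) ∧ (y.1.1 ∈ U → y.1.2 = x.1.1))
  symm := ⟨fun x y h => by
    rcases h with ⟨h1, h2⟩ | ⟨h1, h2, h3⟩
    · exact Or.inl ⟨h1.symm, h2.symm⟩
    · exact Or.inr ⟨h1.symm, h3, h2⟩⟩
  loopless := ⟨fun x h => by
    rcases h with ⟨_, h⟩ | ⟨h, _⟩
    · exact h rfl
    · exact G.loopless.irrefl _ h⟩

/-- `T(G)`: the least size of a set `U` of vertices such that `G_U` can be covered by four perfect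
matchings (infinite if there is no such set) -/
noncomputable def T (G : SimpleGraph V) : ℕ∞ :=
  ⨅ (U : Finset V) (_ : FourCoverable (expand G (U : Set V))), (U.card : ℕ∞)

/-! ### General facts -/

lemma four_iso {W : Type} {G : SimpleGraph V} {G' : SimpleGraph W} (e : G ≃g G')
    (h : FourCoverable G) : FourCoverable G' := by
  obtain ⟨M, hM, hcov⟩ := h
  have hinv : ∀ x : Sym2 W, Sym2.map e (Sym2.map e.symm x) = x := by
    intro x
    rw [Sym2.map_map]
    have : (e ∘ e.symm) = id := by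
      funext y; simp
    rw [this, Sym2.map_id]; rfl
  have hinv' : ∀ x : Sym2 V, Sym2.map e.symm (Sym2.map e x) = x := by
    intro x
    rw [Sym2.map_map]
    have : (e.symm ∘ e) = id := by
      funext y; simp
    rw [this, Sym2.map_id]; rfl
  refine ⟨fun i => (Sym2.map e) '' (M i), fun i => ⟨?_, ?_⟩, ?_⟩
  · rintro _ ⟨x, hx, rfl⟩
    have := (hM i).1 hx
    induction x with
    | _ a b =>
      rw [Sym2.map_mk]
      exact e.map_adj_iff.2 this
  · intro w
    obtain ⟨x, ⟨hx1, hx2⟩, hx3⟩ := (hM i).2 (e.symm w)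
    refine ⟨Sym2.map e x, ⟨⟨x, hx1, rfl⟩, ?_⟩, ?_⟩
    · exact Sym2.mem_map.2 ⟨e.symm w, hx2, by simp⟩
    · rintro _ ⟨⟨y, hy, rfl⟩, hwy⟩
      obtain ⟨v, hv, hvw⟩ := Sym2.mem_map.1 hwy
      have : v = e.symm w := by rw [← hvw]; simp
      rw [hx3 y ⟨hy, this ▸ hv⟩]
  · intro x hx
    have : Sym2.map e.symm x ∈ G.edgeSet := by
      induction x with
      | _ a b =>
        rw [Sym2.map_mk]
        exact e.symm.map_adj_iff.2 hx
    obtain ⟨i, hi⟩ := hcov _ this
    exact ⟨i, _, hi, hinv x⟩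

/-- expanding no vertex changes nothing -/
def expandEmpty (G : SimpleGraph V) : expand G (∅ : Set V) ≃g G where
  toFun x := x.1.1
  invFun v := ⟨(v, v), Or.inl ⟨fun h => h, rfl⟩⟩
  left_inv := by
    rintro ⟨⟨a, b⟩, h⟩
    apply Subtype.ext
    rcases h with ⟨_, h⟩ | ⟨h, _⟩
    · have h' : b = a := h
      simp [h']
    · exact absurd h (fun h => h)
  right_inv _ := rfl
  map_rel_iff' := by
    rintro ⟨⟨a, b⟩, h⟩ ⟨⟨a', b'⟩, h'⟩
    rcases h with ⟨_, h⟩ | ⟨h, _⟩
    · rcases h' with ⟨_, h'⟩ | ⟨h', _⟩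
      · have e1 : b = a := h
        have e2 : b' = a' := h'
        subst e1 e2
        constructor
        · intro hadj
          exact Or.inr ⟨hadj, fun h => absurd h (fun h => h), fun h => absurd h (fun h => h)⟩
        · rintro (⟨h1, h2⟩ | ⟨h1, _⟩)
          · have h1' : b = b' := h1
            subst h1'
            exact absurd rfl h2
          · exact h1
      · exact absurd h' (fun h => h)
    · exact absurd h (fun h => h)

lemma one_le_T {G : SimpleGraph V} (h : ¬ FourCoverable G) : 1 ≤ T G := by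
  unfold T
  refine le_iInf₂ fun U hU => ?_
  have : U ≠ ∅ := by
    rintro rfl
    rw [Finset.coe_empty] at hU
    exact h (four_iso (expandEmpty G) hU)
  have h1 : 1 ≤ U.card := Finset.card_pos.2 (Finset.nonempty_iff_ne_empty.2 this)
  exact_mod_cast h1

lemma cycle_length [Fintype V] [DecidableEq V] {G : SimpleGraph V} {u : V} (c : G.Walk u u)
    (hc : c.IsCycle) : c.length = ∑ v : V, if v ∈ c.support then 1 else 0 := by
  have h1 : c.support.tail.Nodup := hc.support_nodup
  have h2 : ∀ v, v ∈ c.support ↔ v ∈ c.support.tail := by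
    intro v
    constructor
    · intro hv
      rcases (Walk.mem_support_iff c).1 hv with rfl | hv
      · exact Walk.end_mem_tail_support hc.not_nil
      · exact hv
    · exact fun hv => List.mem_of_mem_tail hv
  rw [← Finset.sum_filter, Finset.sum_const, smul_eq_mul, mul_one]
  have h3 : (Finset.univ.filter fun v => v ∈ c.support) = c.support.tail.toFinset := by
    ext v
    simp [h2 v]
  rw [h3, List.toFinset_card_of_nodup h1, List.length_tail, Walk.length_support]
  omega

lemma total_length [Fintype V] [DecidableEq V] {G : SimpleGraph V}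
    (F : List (Σ u : V, G.Walk u u)) (hF : ∀ c ∈ F, c.2.IsCycle) :
    (F.map fun c => c.2.length).sum = ∑ v : V, F.countP (fun c => decide (v ∈ c.2.support)) := by
  induction F with
  | nil => simp
  | cons c F ih =>
    have h1 := ih (fun d hd => hF d (List.mem_cons_of_mem c hd))
    rw [List.map_cons, List.sum_cons, h1, cycle_length c.2 (hF c (by simp)),
      ← Finset.sum_add_distrib]
    apply Finset.sum_congr rfl
    intro v _
    rw [List.countP_cons, add_comm]
    simp

lemma cover_length [Fintype V] {G : SimpleGraph V} (hG : IsCubic G)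
    (F : List (Σ u : V, G.Walk u u)) (hF : IsCycleCover G F) :
    2 * Fintype.card V ≤ (F.map fun c => c.2.length).sum := by
  classical
  rw [total_length F hF.1]
  have key : ∀ v : V, 2 ≤ F.countP (fun c => decide (v ∈ c.2.support)) := by
    intro v
    by_contra hlt
    have hle : (F.filter (fun c => decide (v ∈ c.2.support))).length ≤ 1 := by
      rw [← List.countP_eq_length_filter]; omega
    have hne : (G.neighborSet v).Nonempty := by
      rw [← Set.ncard_pos (Set.toFinite _), hG v]; norm_num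
    obtain ⟨w, hw⟩ := hne
    obtain ⟨c, hcF, hc⟩ := hF.2 s(v, w) hw
    have hvc : v ∈ c.2.support := Walk.fst_mem_support_of_mem_edges c.2 hc
    have hsub : G.neighborSet v ⊆ c.2.toSubgraph.neighborSet v := by
      intro x hx
      obtain ⟨d, hdF, hd⟩ := hF.2 s(v, x) hx
      have hvd : v ∈ d.2.support := Walk.fst_mem_support_of_mem_edges d.2 hd
      have h1 : c ∈ F.filter (fun c => decide (v ∈ c.2.support)) :=
        List.mem_filter.2 ⟨hcF, by simpa using hvc⟩
      have h2 : d ∈ F.filter (fun c => decide (v ∈ c.2.support)) :=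
        List.mem_filter.2 ⟨hdF, by simpa using hvd⟩
      have h3 : c = d := by
        obtain ⟨m, hm⟩ : ∃ m, m = F.filter (fun c => decide (v ∈ c.2.support)) := ⟨_, rfl⟩
        rw [← hm] at h1 h2 hle
        match m, h1, h2, hle with
        | [a], h1, h2, _ =>
          rw [List.mem_singleton] at h1 h2
          rw [h1, h2]
        | [], h1, _, _ => exact absurd h1 (by simp)
        | _ :: _ :: _, _, _, hle => simp at hle
      subst h3
      exact (Walk.adj_toSubgraph_iff_mem_edges).2 hd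
    have h4 := (hF.1 c hcF).ncard_neighborSet_toSubgraph_eq_two hvc
    have h5 := Set.ncard_le_ncard hsub (Set.toFinite _)
    rw [hG v, h4] at h5
    omega
  calc 2 * Fintype.card V = ∑ _v : V, 2 := by
        rw [Finset.sum_const, Finset.card_univ, smul_eq_mul, mul_comm]
    _ ≤ _ := Finset.sum_le_sum fun v _ => key v

/-- the consecutive pairs of a list -/
def pairsOf : List V → List (Sym2 V)
  | a :: b :: l => s(a, b) :: pairsOf (b :: l)
  | _ => []

lemma exists_walk (G : SimpleGraph V) : ∀ (l : List V) (b z : V), List.IsChain G.Adj (b :: l) →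
    (b :: l).getLast? = some z →
    ∃ p : G.Walk b z, p.support = b :: l ∧ p.edges = pairsOf (b :: l) ∧ p.length = l.length
  | [], b, z, _, hz => by
    have : b = z := by simpa using hz
    subst this
    exact ⟨Walk.nil, rfl, rfl, rfl⟩
  | c :: l, b, z, hc, hz => by
    obtain ⟨hbc, hc'⟩ := List.isChain_cons_cons.1 hc
    obtain ⟨p, h1, h2, h3⟩ := exists_walk G l c z hc' (by simpa using hz)
    exact ⟨Walk.cons hbc p, by rw [Walk.support_cons, h1], by rw [Walk.edges_cons, h2]; rfl,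
      by rw [Walk.length_cons, h3]; rfl⟩

/-- the list `a :: b :: l` goes once around a cycle of `G` -/
def Good [DecidableEq V] (G : SimpleGraph V) : List V → Prop
  | a :: b :: l => (b :: l).Nodup ∧ a ∉ b :: l ∧ l ≠ [] ∧ List.IsChain G.Adj (a :: b :: (l ++ [a]))
  | _ => False

lemma exists_cycle [DecidableEq V] (G : SimpleGraph V) (l : List V) (h : Good G l) :
    ∃ c : (Σ u : V, G.Walk u u), c.2.IsCycle ∧ c.2.length = l.length ∧
      ∀ e ∈ pairsOf (l ++ l.take 1), e ∈ c.2.edges := by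
  match l, h with
  | a :: b :: l, ⟨h1, h2, h3, h4⟩ =>
    obtain ⟨hab, h5⟩ := List.isChain_cons_cons.1 h4
    obtain ⟨p, p1, p2, p3⟩ := exists_walk G (l ++ [a]) b a h5 (by simp [List.getLast?_cons])
    refine ⟨⟨a, Walk.cons hab p⟩, ?_, ?_, ?_⟩
    · show (Walk.cons hab p).IsCycle
      rw [Walk.cons_isCycle_iff]
      have hnd : p.support.Nodup := by
        rw [p1, ← List.cons_append, List.nodup_append]
        refine ⟨h1, List.nodup_singleton a, ?_⟩
        intro x hx y hy hxy
        rw [List.mem_singleton] at hy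
        subst hy
        subst hxy
        exact h2 hx
      refine ⟨(Walk.isPath_def p).2 hnd, ?_⟩
      -- the edge `a b` is not used by the path from `b` to `a`, which has length at least two
      intro hmem
      obtain ⟨c, l', rfl⟩ : ∃ c l', l = c :: l' := by
        cases l with
        | nil => exact absurd rfl h3
        | cons c l' => exact ⟨c, l', rfl⟩
      rw [p2] at hmem
      have hb : b ∉ c :: l' := (List.nodup_cons.1 h1).1
      have hac : a ≠ c := fun h => h2 (by simp [h])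
      have hba : b ≠ a := fun h => h2 (by simp [h])
      have hno : ∀ (m : List V), b ∉ m → s(a, b) ∉ pairsOf m := by
        intro m
        induction m with
        | nil => intro _ h; simp [pairsOf] at h
        | cons x m ih =>
          intro hbm h
          cases m with
          | nil => simp [pairsOf] at h
          | cons y m =>
            rw [pairsOf, List.mem_cons] at h
            rcases h with h | h
            · rw [Sym2.eq_iff] at h
              rcases h with ⟨_, h⟩ | ⟨_, h⟩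
              · exact hbm (by simp [h])
              · exact hbm (by simp [h])
            · exact ih (fun h => hbm (List.mem_cons_of_mem x h)) h
      rw [List.cons_append, pairsOf, List.mem_cons] at hmem
      rcases hmem with hmem | hmem
      · rw [Sym2.eq_iff] at hmem
        rcases hmem with ⟨h, _⟩ | ⟨h, _⟩
        · exact hba h.symm
        · exact hac h
      · refine hno _ ?_ hmem
        intro h
        rw [← List.cons_append, List.mem_append, List.mem_singleton] at h
        rcases h with h | h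
        · exact hb h
        · exact hba h
    · show (Walk.cons hab p).length = _
      rw [Walk.length_cons, p3]
      simp
    · intro e he
      show e ∈ (Walk.cons hab p).edges
      rw [Walk.edges_cons, p2]
      simpa [pairsOf] using he

lemma exists_family [DecidableEq V] (G : SimpleGraph V) (C : List (List V))
    (h : ∀ l ∈ C, Good G l) :
    ∃ F : List (Σ u : V, G.Walk u u), (∀ c ∈ F, c.2.IsCycle) ∧
      (F.map fun c => c.2.length).sum = (C.map List.length).sum ∧
      ∀ l ∈ C, ∀ e ∈ pairsOf (l ++ l.take 1), ∃ c ∈ F, e ∈ c.2.edges := by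
  induction C with
  | nil => exact ⟨[], by simp, by simp, by simp⟩
  | cons l C ih =>
    obtain ⟨F, h1, h2, h3⟩ := ih (fun m hm => h m (List.mem_cons_of_mem l hm))
    obtain ⟨c, c1, c2, c3⟩ := exists_cycle G l (h l (by simp))
    refine ⟨c :: F, ?_, ?_, ?_⟩
    · intro d hd
      rcases List.mem_cons.1 hd with rfl | hd
      · exact c1
      · exact h1 d hd
    · rw [List.map_cons, List.sum_cons, h2, c2, List.map_cons, List.sum_cons]
    · intro m hm e he
      rcases List.mem_cons.1 hm with rfl | hm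
      · exact ⟨c, by simp, c3 e he⟩
      · obtain ⟨d, hd, hde⟩ := h3 m hm e he
        exact ⟨d, List.mem_cons_of_mem c hd, hde⟩

/-! ### The graph -/

/-- adjacency matrix of the graph, the bit `90 u + v` says whether `u` and `v` are adjacent -/
def adjN : ℕ := 0x340000000000000000000006800000000000000000000890000000000000000000030200000000000000000000600002000000000000000020800000400000000000000450000000000000000000008a00000000000000000000110000000000400000000000068000000000000000000000d000000000000000000001120000000000000000000060400000000000000000000c000020000000000000000410000008000000000000008a00000000000000000000114000000000000000000002200000000008000000000000d0000000000000000000001a0000000000000000000022400000000000000000000c08000000000000000080018000000000000000000000820001000000000000000011400000000000000000000228000000000000000000004400000000010000000000001a00000000000000000000034000000000000000000004480000000000000000000181000000000000001000003000000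000000000000400104000000000000000000002280000000000000000000045000000000000000000000880000000002000000000000340000000000000000000006800000000000000000000890000000000000000000030200000000000000200000600000000000000000040020800000000000000000000450000000000000000000008a00000000000000000000110000000000400000000000068000000000000000000000d000000000000000000001120000000000000000000060400000000002000000000c000000000000000000000410100000000000000000008a00000000000000000000114000000000000000000002200000000800000000000000d0000000000000000000001a0000000000000000000022400000000000000000000c08000000000040000000018000000000000000000008820000000000000000000011400000000000000000000228000000000000000000004408000000000000000000001a00000000000000000000034000000000000000000004480000000000000000000181000000000008000000003000000000000000000000304000000000000000000002280000000000000000000045000000000000000000000881000000000000000000000340000000000000000000006800000000000000000000890000000000000000000030200000000001000000000600000000000000000000060800000000000000000000450000000000000000000008a00000000000000000000110040000000000000000000068000000000000000000000d000000000000000000001120000000000000000000060400000000002000000000c000000000000004000000410000000000000000000008a000000000000000000001140000000000000000000222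

/-- adjacency -/
def adj (u v : ℕ) : Bool := adjN.testBit (90 * u + v)

lemma adj_symm : ∀ u v : Fin 90, adj u.val v.val = adj v.val u.val := by decide +kernel

lemma adj_irrefl : ∀ u : Fin 90, adj u.val u.val = false := by decide +kernel

/-- the graph on 90 vertices: vertex `9 i + w` is the vertex `w` of copy `i` -/
def G : SimpleGraph (Fin 90) where
  Adj u v := adj u.val v.val = true
  symm := ⟨fun u v h => by rw [adj_symm]; exact h⟩
  loopless := ⟨fun u h => by rw [adj_irrefl] at h; exact absurd h (by simp)⟩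

instance : DecidableRel G.Adj := fun u v => by unfold G; infer_instance

lemma G_cubic : IsCubic G := by
  have h : ∀ v : Fin 90, (Finset.univ.filter fun w => G.Adj v w).card = 3 := by decide +kernel
  intro v
  rw [← h v, ← Set.ncard_coe_finset]
  congr 1
  ext w
  simp

lemma G_edges : G.edgeSet.ncard = 135 := by
  classical
  have h1 := G.sum_degrees_eq_twice_card_edges
  have h2 : ∀ v, G.degree v = 3 := by
    intro v
    have := G_cubic v
    rw [← Nat.card_coe_set_eq, Nat.card_eq_fintype_card] at this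
    rw [← this]
    exact (G.card_neighborSet_eq_degree v).symm
  rw [Finset.sum_congr rfl (fun v _ => h2 v)] at h1
  rw [← G.coe_edgeFinset, Set.ncard_coe_finset]
  simp at h1
  omega

/-! ### 3-edge-connectivity -/

/-- parents in a spanning tree with root 0 -/
def par : List ℕ :=
  [0, 0, 1, 2, 6, 0, 1, 5, 5, 0, 9, 10, 11, 15, 9, 10, 14, 14, 12, 18, 19, 20, 24, 18, 19, 23, 23,
   21, 29, 30, 39, 34, 35, 35, 29, 30, 3, 36, 37, 38, 42, 36, 37, 41, 41, 4, 45, 46, 47, 51, 45,
   46, 50, 50, 13, 54, 55, 56, 60, 54, 55, 59, 59, 22, 65, 66, 48, 70, 71, 71, 65, 66, 73, 74, 75,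
   49, 57, 80, 80, 74, 75, 40, 81, 82, 58, 87, 81, 82, 86, 86]

/-- distances from 0 -/
def dep : List ℕ :=
  [0, 1, 2, 3, 3, 1, 2, 2, 2, 1, 2, 3, 4, 4, 2, 3, 3, 3, 5, 6, 7, 8, 8, 6, 7, 7, 7, 9, 10, 9, 8,
   11, 10, 10, 10, 9, 4, 5, 6, 7, 7, 5, 6, 6, 6, 4, 5, 6, 7, 7, 5, 6, 6, 6, 5, 6, 7, 8, 8, 6, 7, 7,
   7, 9, 10, 9, 8, 11, 10, 10, 10, 9, 11, 10, 9, 8, 9, 10, 10, 10, 9, 8, 9, 10, 9, 11, 9, 10, 10,
   10]

lemma par_ok : ∀ v : Fin 90, v.val ≠ 0 → par.getD v.val 0 < 90 ∧ adj v.val (par.getD v.val 0) = true ∧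
    dep.getD (par.getD v.val 0) 0 < dep.getD v.val 0 := by decide +kernel

/-- an edge `a b` and two further paths from `a` to `b` -/
def certs : List (ℕ × ℕ × List ℕ × List ℕ) :=
  [(4, 6, [4, 45, 46, 47, 48, 66, 65, 64, 63, 22, 24, 19, 18, 12, 11, 10, 9, 0, 1, 6], [4, 7, 5,
   8, 6]), (0, 1, [0, 9, 10, 11, 12, 18, 19, 24, 22, 63, 64, 65, 66, 48, 47, 46, 45, 4, 6, 1], [0,
   5, 7, 2, 1]), (0, 5, [0, 9, 10, 11, 12, 18, 19, 20, 21, 27, 28, 29, 30, 39, 38, 37, 36, 3, 8,
   5], [0, 1, 2, 7, 5]), (5, 7, [5, 8, 6, 4, 7], [5, 0, 1, 2, 7]), (1, 2, [1, 6, 8, 3, 2], [1, 0,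
   5, 7, 2]), (1, 6, [1, 2, 7, 4, 6], [1, 0, 5, 8, 6]), (6, 8, [6, 1, 2, 3, 8], [6, 4, 7, 5, 8]),
   (2, 3, [2, 7, 4, 45, 46, 47, 48, 66, 65, 70, 67, 85, 87, 82, 81, 40, 42, 37, 36, 3], [2, 1, 6,
   8, 3]), (2, 7, [2, 3, 8, 6, 4, 7], [2, 1, 0, 5, 7]), (4, 7, [4, 45, 46, 47, 48, 66, 65, 64, 63,
   22, 24, 19, 18, 12, 11, 10, 9, 0, 5, 7], [4, 6, 1, 2, 7]), (3, 8, [3, 36, 37, 38, 39, 30, 29,
   28, 27, 21, 20, 19, 18, 12, 11, 10, 9, 0, 5, 8], [3, 2, 1, 6, 8]), (5, 8, [5, 7, 2, 3, 8], [5,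
   0, 1, 6, 8]), (13, 15, [13, 54, 55, 56, 57, 76, 78, 80, 75, 49, 51, 46, 45, 4, 6, 1, 0, 9, 10,
   15], [13, 16, 14, 17, 15]), (9, 10, [9, 0, 1, 2, 3, 36, 37, 42, 40, 81, 82, 83, 84, 58, 60, 55,
   54, 13, 15, 10], [9, 14, 16, 11, 10]), (9, 14, [9, 0, 1, 2, 3, 36, 37, 38, 39, 30, 29, 28, 27,
   21, 20, 19, 18, 12, 17, 14], [9, 10, 11, 16, 14]), (14, 16, [14, 17, 15, 13, 16], [14, 9, 10,
   11, 16]), (10, 11, [10, 15, 17, 12, 11], [10, 9, 14, 16, 11]), (10, 15, [10, 11, 16, 13, 15],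
   [10, 9, 14, 17, 15]), (15, 17, [15, 10, 11, 12, 17], [15, 13, 16, 14, 17]), (11, 12, [11, 16,
   13, 54, 55, 56, 57, 76, 78, 73, 72, 31, 33, 28, 27, 21, 20, 19, 18, 12], [11, 10, 15, 17, 12]),
   (11, 16, [11, 12, 17, 15, 13, 16], [11, 10, 9, 14, 16]), (13, 16, [13, 54, 55, 56, 57, 76, 78,
   80, 75, 49, 51, 46, 45, 4, 6, 1, 0, 9, 14, 16], [13, 15, 10, 11, 16]), (12, 17, [12, 18, 19, 20,
   21, 27, 28, 29, 30, 39, 38, 37, 36, 3, 2, 1, 0, 9, 14, 17], [12, 11, 10, 15, 17]), (14, 17, [14,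
   16, 11, 12, 17], [14, 9, 10, 15, 17]), (22, 24, [22, 63, 64, 65, 66, 48, 47, 46, 45, 4, 6, 1, 0,
   9, 10, 11, 12, 18, 19, 24], [22, 25, 23, 26, 24]), (18, 19, [18, 12, 11, 10, 9, 0, 1, 6, 4, 45,
   46, 47, 48, 66, 65, 64, 63, 22, 24, 19], [18, 23, 25, 20, 19]), (18, 23, [18, 12, 11, 10, 9, 0,
   1, 2, 3, 36, 37, 38, 39, 30, 29, 28, 27, 21, 26, 23], [18, 19, 20, 25, 23]), (23, 25, [23, 26,
   24, 22, 25], [23, 18, 19, 20, 25]), (19, 20, [19, 24, 26, 21, 20], [19, 18, 23, 25, 20]), (19,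
   24, [19, 20, 25, 22, 24], [19, 18, 23, 26, 24]), (24, 26, [24, 19, 20, 21, 26], [24, 22, 25, 23,
   26]), (20, 21, [20, 25, 22, 63, 64, 65, 66, 48, 47, 52, 49, 75, 74, 73, 72, 31, 33, 28, 27, 21],
   [20, 19, 24, 26, 21]), (20, 25, [20, 21, 26, 24, 22, 25], [20, 19, 18, 23, 25]), (22, 25, [22,
   63, 64, 65, 66, 48, 47, 46, 45, 4, 6, 1, 0, 9, 10, 11, 12, 18, 23, 25], [22, 24, 19, 20, 25]),
   (21, 26, [21, 27, 28, 29, 30, 39, 38, 37, 36, 3, 2, 1, 0, 9, 10, 11, 12, 18, 23, 26], [21, 20,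
   19, 24, 26]), (23, 26, [23, 25, 20, 21, 26], [23, 18, 19, 24, 26]), (31, 33, [31, 72, 73, 74,
   75, 49, 51, 53, 48, 66, 65, 64, 63, 22, 24, 26, 21, 27, 28, 33], [31, 34, 32, 35, 33]), (27, 28,
   [27, 21, 20, 19, 18, 12, 11, 16, 13, 54, 55, 56, 57, 76, 78, 73, 72, 31, 33, 28], [27, 32, 34,
   29, 28]), (27, 32, [27, 21, 20, 19, 18, 12, 11, 10, 9, 0, 1, 2, 3, 36, 37, 38, 39, 30, 35, 32],
   [27, 28, 29, 34, 32]), (32, 34, [32, 35, 33, 31, 34], [32, 27, 28, 29, 34]), (28, 29, [28, 33,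
   35, 30, 29], [28, 27, 32, 34, 29]), (28, 33, [28, 29, 34, 31, 33], [28, 27, 32, 35, 33]), (33,
   35, [33, 28, 29, 30, 35], [33, 31, 34, 32, 35]), (29, 30, [29, 34, 31, 72, 73, 74, 75, 49, 51,
   46, 45, 4, 6, 8, 3, 36, 37, 38, 39, 30], [29, 28, 33, 35, 30]), (29, 34, [29, 30, 35, 33, 31,
   34], [29, 28, 27, 32, 34]), (31, 34, [31, 72, 73, 74, 75, 49, 51, 53, 48, 66, 65, 64, 63, 22,
   24, 26, 21, 27, 32, 34], [31, 33, 28, 29, 34]), (30, 35, [30, 39, 38, 37, 36, 3, 2, 1, 0, 9, 10,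
   11, 12, 18, 19, 20, 21, 27, 32, 35], [30, 29, 28, 33, 35]), (32, 35, [32, 34, 29, 30, 35], [32,
   27, 28, 33, 35]), (40, 42, [40, 81, 82, 83, 84, 58, 60, 55, 54, 13, 15, 10, 9, 0, 1, 2, 3, 36,
   37, 42], [40, 43, 41, 44, 42]), (36, 37, [36, 3, 2, 1, 0, 9, 10, 15, 13, 54, 55, 60, 58, 84, 83,
   82, 81, 40, 42, 37], [36, 41, 43, 38, 37]), (36, 41, [36, 3, 2, 1, 0, 9, 10, 11, 12, 18, 19, 20,
   21, 27, 28, 29, 30, 39, 44, 41], [36, 37, 38, 43, 41]), (41, 43, [41, 44, 42, 40, 43], [41, 36,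
   37, 38, 43]), (37, 38, [37, 42, 44, 39, 38], [37, 36, 41, 43, 38]), (37, 42, [37, 38, 43, 40,
   42], [37, 36, 41, 44, 42]), (42, 44, [42, 37, 38, 39, 44], [42, 40, 43, 41, 44]), (38, 39, [38,
   43, 40, 81, 82, 83, 84, 58, 60, 62, 57, 76, 78, 73, 72, 31, 33, 35, 30, 39], [38, 37, 42, 44,
   39]), (38, 43, [38, 39, 44, 42, 40, 43], [38, 37, 36, 41, 43]), (40, 43, [40, 81, 82, 83, 84,
   58, 60, 55, 54, 13, 15, 10, 9, 0, 1, 2, 3, 36, 41, 43], [40, 42, 37, 38, 43]), (39, 44, [39, 30,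
   29, 28, 27, 21, 20, 19, 18, 12, 11, 10, 9, 0, 1, 2, 3, 36, 41, 44], [39, 38, 37, 42, 44]), (41,
   44, [41, 43, 38, 39, 44], [41, 36, 37, 42, 44]), (49, 51, [49, 75, 74, 73, 72, 31, 33, 35, 30,
   39, 38, 37, 36, 3, 2, 7, 4, 45, 46, 51], [49, 52, 50, 53, 51]), (45, 46, [45, 4, 6, 1, 0, 9, 10,
   15, 13, 54, 55, 56, 57, 76, 78, 80, 75, 49, 51, 46], [45, 50, 52, 47, 46]), (45, 50, [45, 4, 6,
   1, 0, 9, 10, 11, 12, 18, 19, 24, 22, 63, 64, 65, 66, 48, 53, 50], [45, 46, 47, 52, 50]), (50,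
   52, [50, 53, 51, 49, 52], [50, 45, 46, 47, 52]), (46, 47, [46, 51, 53, 48, 47], [46, 45, 50, 52,
   47]), (46, 51, [46, 47, 52, 49, 51], [46, 45, 50, 53, 51]), (51, 53, [51, 46, 47, 48, 53], [51,
   49, 52, 50, 53]), (47, 48, [47, 52, 49, 75, 74, 73, 72, 31, 33, 28, 27, 21, 20, 25, 22, 63, 64,
   65, 66, 48], [47, 46, 51, 53, 48]), (47, 52, [47, 48, 53, 51, 49, 52], [47, 46, 45, 50, 52]),
   (49, 52, [49, 75, 74, 73, 72, 31, 33, 35, 30, 39, 38, 37, 36, 3, 2, 7, 4, 45, 50, 52], [49, 51,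
   46, 47, 52]), (48, 53, [48, 66, 65, 64, 63, 22, 24, 19, 18, 12, 11, 10, 9, 0, 1, 6, 4, 45, 50,
   53], [48, 47, 46, 51, 53]), (50, 53, [50, 52, 47, 48, 53], [50, 45, 46, 51, 53]), (58, 60, [58,
   84, 83, 82, 81, 40, 42, 37, 36, 3, 2, 1, 0, 9, 10, 15, 13, 54, 55, 60], [58, 61, 59, 62, 60]),
   (54, 55, [54, 13, 15, 10, 9, 0, 1, 2, 3, 36, 37, 42, 40, 81, 82, 83, 84, 58, 60, 55], [54, 59,
   61, 56, 55]), (54, 59, [54, 13, 15, 10, 9, 0, 1, 6, 4, 45, 46, 51, 49, 75, 74, 79, 76, 57, 62,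
   59], [54, 55, 56, 61, 59]), (59, 61, [59, 62, 60, 58, 61], [59, 54, 55, 56, 61]), (55, 56, [55,
   60, 62, 57, 56], [55, 54, 59, 61, 56]), (55, 60, [55, 56, 61, 58, 60], [55, 54, 59, 62, 60]),
   (60, 62, [60, 55, 56, 57, 62], [60, 58, 61, 59, 62]), (56, 57, [56, 61, 58, 84, 83, 82, 81, 40,
   42, 44, 39, 30, 29, 34, 31, 72, 73, 78, 76, 57], [56, 55, 60, 62, 57]), (56, 61, [56, 57, 62,
   60, 58, 61], [56, 55, 54, 59, 61]), (58, 61, [58, 84, 83, 82, 81, 40, 42, 37, 36, 3, 2, 1, 0, 9,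
   10, 15, 13, 54, 59, 61], [58, 60, 55, 56, 61]), (57, 62, [57, 76, 78, 73, 72, 31, 33, 28, 27,
   21, 20, 19, 18, 12, 11, 16, 13, 54, 59, 62], [57, 56, 55, 60, 62]), (59, 62, [59, 61, 56, 57,
   62], [59, 54, 55, 60, 62]), (67, 69, [67, 85, 87, 82, 81, 40, 42, 44, 39, 30, 29, 28, 27, 21,
   20, 25, 22, 63, 64, 69], [67, 70, 68, 71, 69]), (63, 64, [63, 22, 24, 19, 18, 12, 11, 16, 13,
   54, 55, 60, 58, 84, 83, 88, 85, 67, 69, 64], [63, 68, 70, 65, 64]), (63, 68, [63, 22, 24, 19,
   18, 12, 11, 10, 9, 0, 1, 6, 4, 45, 46, 47, 48, 66, 71, 68], [63, 64, 65, 70, 68]), (68, 70, [68,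
   71, 69, 67, 70], [68, 63, 64, 65, 70]), (64, 65, [64, 69, 71, 66, 65], [64, 63, 68, 70, 65]),
   (64, 69, [64, 65, 70, 67, 69], [64, 63, 68, 71, 69]), (69, 71, [69, 64, 65, 66, 71], [69, 67,
   70, 68, 71]), (65, 66, [65, 70, 67, 85, 87, 82, 81, 40, 42, 37, 36, 3, 2, 7, 4, 45, 46, 47, 48,
   66], [65, 64, 69, 71, 66]), (65, 70, [65, 66, 71, 69, 67, 70], [65, 64, 63, 68, 70]), (67, 70,
   [67, 85, 87, 82, 81, 40, 42, 44, 39, 30, 29, 28, 27, 21, 20, 25, 22, 63, 68, 70], [67, 69, 64,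
   65, 70]), (66, 71, [66, 48, 47, 46, 45, 4, 6, 1, 0, 9, 10, 11, 12, 18, 19, 24, 22, 63, 68, 71],
   [66, 65, 64, 69, 71]), (68, 71, [68, 70, 65, 66, 71], [68, 63, 64, 69, 71]), (76, 78, [76, 57,
   56, 55, 54, 13, 15, 17, 12, 18, 19, 20, 21, 27, 28, 33, 31, 72, 73, 78], [76, 79, 77, 80, 78]),
   (72, 73, [72, 31, 33, 28, 27, 21, 20, 19, 18, 12, 11, 16, 13, 54, 55, 56, 57, 76, 78, 73], [72,
   77, 79, 74, 73]), (72, 77, [72, 31, 33, 28, 27, 21, 20, 25, 22, 63, 64, 65, 66, 48, 47, 52, 49,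
   75, 80, 77], [72, 73, 74, 79, 77]), (77, 79, [77, 80, 78, 76, 79], [77, 72, 73, 74, 79]), (73,
   74, [73, 78, 80, 75, 74], [73, 72, 77, 79, 74]), (73, 78, [73, 74, 79, 76, 78], [73, 72, 77, 80,
   78]), (78, 80, [78, 73, 74, 75, 80], [78, 76, 79, 77, 80]), (74, 75, [74, 79, 76, 57, 56, 55,
   54, 13, 15, 10, 9, 0, 1, 6, 4, 45, 46, 51, 49, 75], [74, 73, 78, 80, 75]), (74, 79, [74, 75, 80,
   78, 76, 79], [74, 73, 72, 77, 79]), (76, 79, [76, 57, 56, 55, 54, 13, 15, 17, 12, 18, 19, 20,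
   21, 27, 28, 33, 31, 72, 77, 79], [76, 78, 73, 74, 79]), (75, 80, [75, 49, 51, 46, 45, 4, 6, 8,
   3, 36, 37, 38, 39, 30, 29, 34, 31, 72, 77, 80], [75, 74, 73, 78, 80]), (77, 80, [77, 79, 74, 75,
   80], [77, 72, 73, 78, 80]), (85, 87, [85, 67, 69, 64, 63, 22, 24, 26, 21, 27, 28, 29, 30, 39,
   38, 43, 40, 81, 82, 87], [85, 88, 86, 89, 87]), (81, 82, [81, 40, 42, 37, 36, 3, 2, 7, 4, 45,
   46, 47, 48, 66, 65, 70, 67, 85, 87, 82], [81, 86, 88, 83, 82]), (81, 86, [81, 40, 42, 37, 36, 3,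
   2, 1, 0, 9, 10, 15, 13, 54, 55, 60, 58, 84, 89, 86], [81, 82, 83, 88, 86]), (86, 88, [86, 89,
   87, 85, 88], [86, 81, 82, 83, 88]), (82, 83, [82, 87, 89, 84, 83], [82, 81, 86, 88, 83]), (82,
   87, [82, 83, 88, 85, 87], [82, 81, 86, 89, 87]), (87, 89, [87, 82, 83, 84, 89], [87, 85, 88, 86,
   89]), (83, 84, [83, 88, 85, 67, 69, 64, 63, 22, 24, 19, 18, 12, 11, 16, 13, 54, 55, 60, 58, 84],
   [83, 82, 87, 89, 84]), (83, 88, [83, 84, 89, 87, 85, 88], [83, 82, 81, 86, 88]), (85, 88, [85,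
   67, 69, 64, 63, 22, 24, 26, 21, 27, 28, 29, 30, 39, 38, 43, 40, 81, 86, 88], [85, 87, 82, 83,
   88]), (84, 89, [84, 58, 60, 55, 54, 13, 15, 10, 9, 0, 1, 2, 3, 36, 37, 42, 40, 81, 86, 89], [84,
   83, 82, 87, 89]), (86, 89, [86, 88, 83, 84, 89], [86, 81, 82, 87, 89]), (0, 9, [0, 5, 7, 4, 45,
   46, 51, 49, 75, 74, 79, 76, 57, 56, 55, 54, 13, 16, 14, 9], [0, 1, 2, 3, 36, 37, 38, 39, 30, 29,
   28, 27, 21, 20, 19, 18, 12, 11, 10, 9]), (4, 45, [4, 7, 2, 3, 36, 37, 38, 39, 30, 29, 34, 31,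
   72, 73, 74, 75, 49, 52, 50, 45], [4, 6, 1, 0, 9, 10, 11, 12, 18, 19, 24, 22, 63, 64, 65, 66, 48,
   47, 46, 45]), (48, 66, [48, 53, 51, 49, 75, 74, 79, 76, 57, 56, 61, 58, 84, 83, 88, 85, 67, 69,
   71, 66], [48, 47, 46, 45, 4, 6, 1, 0, 9, 10, 11, 12, 18, 19, 24, 22, 63, 64, 65, 66]), (12, 18,
   [12, 17, 15, 13, 54, 55, 60, 58, 84, 83, 88, 85, 67, 69, 64, 63, 22, 25, 23, 18], [12, 11, 10,
   9, 0, 1, 2, 3, 36, 37, 38, 39, 30, 29, 28, 27, 21, 20, 19, 18]), (13, 54, [13, 16, 11, 12, 18,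
   19, 20, 21, 27, 28, 33, 31, 72, 73, 78, 76, 57, 62, 59, 54], [13, 15, 10, 9, 0, 1, 2, 3, 36, 37,
   42, 40, 81, 82, 83, 84, 58, 60, 55, 54]), (57, 76, [57, 62, 60, 58, 84, 83, 82, 81, 40, 42, 44,
   39, 30, 29, 34, 31, 72, 73, 78, 76], [57, 56, 55, 54, 13, 15, 10, 9, 0, 1, 6, 4, 45, 46, 51, 49,
   75, 74, 79, 76]), (21, 27, [21, 26, 24, 22, 63, 64, 65, 66, 48, 47, 52, 49, 75, 74, 73, 72, 31,
   34, 32, 27], [21, 20, 19, 18, 12, 11, 10, 9, 0, 1, 2, 3, 36, 37, 38, 39, 30, 29, 28, 27]), (22,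
   63, [22, 25, 20, 21, 27, 28, 29, 30, 39, 38, 43, 40, 81, 82, 87, 85, 67, 70, 68, 63], [22, 24,
   19, 18, 12, 11, 10, 9, 0, 1, 6, 4, 45, 46, 47, 48, 66, 65, 64, 63]), (67, 85, [67, 70, 65, 66,
   48, 47, 46, 45, 4, 6, 8, 3, 36, 37, 42, 40, 81, 82, 87, 85], [67, 69, 64, 63, 22, 24, 19, 18,
   12, 11, 16, 13, 54, 55, 60, 58, 84, 83, 88, 85]), (30, 39, [30, 35, 33, 31, 72, 73, 78, 76, 57,
   56, 61, 58, 84, 83, 82, 81, 40, 42, 44, 39], [30, 29, 28, 27, 21, 20, 19, 18, 12, 11, 10, 9, 0,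
   1, 2, 3, 36, 37, 38, 39]), (31, 72, [31, 34, 29, 30, 39, 38, 37, 36, 3, 2, 7, 4, 45, 46, 51, 49,
   75, 80, 77, 72], [31, 33, 28, 27, 21, 20, 19, 18, 12, 11, 16, 13, 54, 55, 56, 57, 76, 78, 73,
   72]), (49, 75, [49, 52, 47, 48, 66, 65, 64, 63, 22, 24, 26, 21, 27, 28, 33, 31, 72, 73, 74, 75],
   [49, 51, 46, 45, 4, 6, 1, 0, 9, 10, 15, 13, 54, 55, 56, 57, 76, 78, 80, 75]), (3, 36, [3, 8, 6,
   4, 45, 46, 47, 48, 66, 65, 70, 67, 85, 87, 82, 81, 40, 43, 41, 36], [3, 2, 1, 0, 9, 10, 11, 12,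
   18, 19, 20, 21, 27, 28, 29, 30, 39, 38, 37, 36]), (40, 81, [40, 43, 38, 39, 30, 29, 28, 27, 21,
   20, 25, 22, 63, 64, 69, 67, 85, 88, 86, 81], [40, 42, 37, 36, 3, 2, 1, 0, 9, 10, 15, 13, 54, 55,
   60, 58, 84, 83, 82, 81]), (58, 84, [58, 61, 56, 57, 76, 78, 80, 75, 49, 51, 53, 48, 66, 65, 70,
   67, 85, 87, 89, 84], [58, 60, 55, 54, 13, 15, 10, 9, 0, 1, 2, 3, 36, 37, 42, 40, 81, 82, 83,
   84])]

/-- the number of the pair `a b` -/
def code (a b : ℕ) : ℕ := bif Nat.ble a b then 90 * a + b else 90 * b + a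

/-- the list goes from `a` to `b` along edges -/
def chk (a b : ℕ) : List ℕ → Bool
  | [] => Nat.beq a b
  | c :: l => Nat.blt c 90 && (adj a c && chk c b l)

/-- the codes of the edges of a path -/
def codes (a : ℕ) : List ℕ → List ℕ
  | [] => []
  | c :: l => code a c :: codes c l

/-- `x` is not in the list -/
def nmem (x : ℕ) : List ℕ → Bool
  | [] => true
  | c :: l => !(Nat.beq x c) && nmem x l

/-- the lists have no common member -/
def disj (l : List ℕ) : List ℕ → Bool
  | [] => true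
  | c :: m => nmem c l && disj l m

/-- check of one certificate -/
def okCert (x : ℕ × ℕ × List ℕ × List ℕ) : Bool :=
  Nat.blt x.1 90 && Nat.blt x.2.1 90 && adj x.1 x.2.1 &&
  chk x.1 x.2.1 x.2.2.1.tail && chk x.1 x.2.1 x.2.2.2.tail &&
  nmem (code x.1 x.2.1) (codes x.1 x.2.2.1.tail) && nmem (code x.1 x.2.1) (codes x.1 x.2.2.2.tail) &&
  disj (codes x.1 x.2.2.1.tail) (codes x.1 x.2.2.2.tail)

lemma certs_ok : certs.all okCert = true := by decide +kernel

lemma certs_all : ∀ u v : Fin 90, adj u.val v.val = true →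
    (certs.any fun x => (Nat.beq x.1 u.val && Nat.beq x.2.1 v.val) ||
      (Nat.beq x.1 v.val && Nat.beq x.2.1 u.val)) = true := by decide +kernel

lemma nmem_iff (x : ℕ) (l : List ℕ) : nmem x l = true ↔ x ∉ l := by
  induction l with
  | nil => simp [nmem]
  | cons c l ih =>
    have h : (Nat.beq x c = false) ↔ ¬ x = c := by rw [← Bool.not_eq_true, Nat.beq_eq]
    simp [nmem, ih, h]

lemma disj_iff (l m : List ℕ) : disj l m = true ↔ ∀ x ∈ m, x ∉ l := by
  induction m with
  | nil => simp [disj]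
  | cons c m ih => simp [disj, ih, nmem_iff]

lemma crossing (X : Fin 90 → Prop) (b : ℕ) (hb : b < 90) (hXb : ¬ X ⟨b, hb⟩) :
    ∀ (l : List ℕ) (a : ℕ) (ha : a < 90), X ⟨a, ha⟩ → chk a b l = true →
    ∃ (c d : Fin 90), X c ∧ ¬ X d ∧ G.Adj c d ∧ code c.val d.val ∈ codes a l := by
  intro l
  induction l with
  | nil =>
    intro a ha hXa h
    have : a = b := by simpa [chk] using h
    subst this
    exact absurd hXa hXb
  | cons c l ih =>
    intro a ha hXa h
    simp only [chk, Bool.and_eq_true] at h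
    obtain ⟨h1, h2, h3⟩ := h
    have hc : c < 90 := Nat.blt_eq.mp h1
    by_cases hXc : X ⟨c, hc⟩
    · obtain ⟨x, y, e1, e2, e3, e4⟩ := ih c hc hXc h3
      exact ⟨x, y, e1, e2, e3, List.mem_cons_of_mem _ e4⟩
    · exact ⟨⟨a, ha⟩, ⟨c, hc⟩, hXa, hXc, h2, by simp [codes]⟩

lemma code_inj (a b c d : Fin 90) (h : s(a, b) = s(c, d)) : code a.val b.val = code c.val d.val := by
  rw [Sym2.eq_iff] at h
  rcases h with ⟨rfl, rfl⟩ | ⟨rfl, rfl⟩
  · rfl
  · unfold code
    rcases lt_trichotomy a.val b.val with h | h | h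
    · have h1 : Nat.ble a.val b.val = true := Nat.ble_eq_true_of_le h.le
      have h2 : Nat.ble b.val a.val = false := by
        rw [Bool.eq_false_iff]
        intro h'
        have := Nat.le_of_ble_eq_true h'
        omega
      rw [h1, h2]; rfl
    · rw [h]
    · have h1 : Nat.ble b.val a.val = true := Nat.ble_eq_true_of_le h.le
      have h2 : Nat.ble a.val b.val = false := by
        rw [Bool.eq_false_iff]
        intro h'
        have := Nat.le_of_ble_eq_true h'
        omega
      rw [h1, h2]; rfl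

lemma tree (X : Fin 90 → Prop) (h : ∀ u v : Fin 90, G.Adj u v → (X u ↔ X v)) :
    ∀ v : Fin 90, X v ↔ X 0 := by
  have main : ∀ (k : ℕ) (v : Fin 90), dep.getD v.val 0 ≤ k → (X v ↔ X 0) := by
    intro k
    induction k with
    | zero =>
      intro v hv
      by_cases h0 : v.val = 0
      · have : v = 0 := Fin.ext h0
        rw [this]
      · have := (par_ok v h0).2.2
        omega
    | succ k ih =>
      intro v hv
      by_cases h0 : v.val = 0
      · have : v = 0 := Fin.ext h0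
        rw [this]
      · obtain ⟨h1, h2, h3⟩ := par_ok v h0
        have h4 := h v ⟨par.getD v.val 0, h1⟩ h2
        rw [h4]
        exact ih _ (by simp only; omega)
  exact fun v => main _ v le_rfl

lemma three_of_cross (X : Set (Fin 90)) (a b : ℕ) (ha : a < 90) (hb : b < 90) (P Q : List ℕ)
    (hadj : adj a b = true) (h1 : chk a b P = true) (h2 : chk a b Q = true)
    (h3 : nmem (code a b) (codes a P) = true) (h4 : nmem (code a b) (codes a Q) = true)
    (h5 : disj (codes a P) (codes a Q) = true) (hXa : (⟨a, ha⟩ : Fin 90) ∈ X)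
    (hXb : (⟨b, hb⟩ : Fin 90) ∉ X) :
    3 ≤ {e : Sym2 (Fin 90) | e ∈ G.edgeSet ∧ ∃ a ∈ X, ∃ b ∈ Xᶜ, e = s(a, b)}.ncard := by
  obtain ⟨c, d, c1, c2, c3, c4⟩ := crossing (fun v => v ∈ X) b hb hXb P a ha hXa h1
  obtain ⟨c', d', d1, d2, d3, d4⟩ := crossing (fun v => v ∈ X) b hb hXb Q a ha hXa h2
  rw [nmem_iff] at h3 h4
  rw [disj_iff] at h5
  have n1 : s((⟨a, ha⟩ : Fin 90), ⟨b, hb⟩) ≠ s(c, d) := by
    intro h
    have := code_inj _ _ _ _ h
    exact h3 (by rw [show code a b = code c.val d.val from this]; exact c4)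
  have n2 : s((⟨a, ha⟩ : Fin 90), ⟨b, hb⟩) ≠ s(c', d') := by
    intro h
    have := code_inj _ _ _ _ h
    exact h4 (by rw [show code a b = code c'.val d'.val from this]; exact d4)
  have n3 : s(c, d) ≠ s(c', d') := by
    intro h
    have := code_inj _ _ _ _ h
    exact h5 _ d4 (by rw [← this]; exact c4)
  have hsub : ({s((⟨a, ha⟩ : Fin 90), ⟨b, hb⟩), s(c, d), s(c', d')} : Finset (Sym2 (Fin 90))) ⊆
      ({e : Sym2 (Fin 90) | e ∈ G.edgeSet ∧ ∃ a ∈ X, ∃ b ∈ Xᶜ, e = s(a, b)}.toFinite).toFinset := by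
    intro e he
    rw [Set.Finite.mem_toFinset]
    simp only [Finset.mem_insert, Finset.mem_singleton] at he
    rcases he with rfl | rfl | rfl
    · exact ⟨hadj, _, hXa, _, hXb, rfl⟩
    · exact ⟨c3, _, c1, _, c2, rfl⟩
    · exact ⟨d3, _, d1, _, d2, rfl⟩
  have hcard := Finset.card_le_card hsub
  rw [Set.ncard_eq_toFinset_card _ (Set.toFinite _)]
  refine le_trans ?_ hcard
  rw [Finset.card_insert_of_notMem (by simp [n1, n2]), Finset.card_insert_of_notMem (by simp [n3]),
    Finset.card_singleton]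

lemma G_conn : ThreeEdgeConnected G := by
  intro X hX hXc
  -- there is an edge that leaves `X`
  obtain ⟨u, v, huv, hu, hv⟩ : ∃ u v : Fin 90, G.Adj u v ∧ u ∈ X ∧ v ∉ X := by
    by_contra hno
    push Not at hno
    have h := tree (fun v => v ∈ X) (fun u v huv =>
      ⟨fun hu => hno u v huv hu, fun hv => hno v u huv.symm hv⟩)
    obtain ⟨a, ha⟩ := hX
    obtain ⟨b, hb⟩ := hXc
    exact hb ((h b).2 ((h a).1 ha))
  have h1 := certs_all u v huv
  rw [List.any_eq_true] at h1
  obtain ⟨x, hx, hx2⟩ := h1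
  have hok := List.all_eq_true.1 certs_ok x hx
  simp only [okCert, Bool.and_eq_true] at hok
  obtain ⟨⟨⟨⟨⟨⟨⟨o1, o2⟩, o3⟩, o4⟩, o5⟩, o6⟩, o7⟩, o8⟩ := hok
  have ha : x.1 < 90 := Nat.blt_eq.mp o1
  have hb : x.2.1 < 90 := Nat.blt_eq.mp o2
  simp only [Bool.or_eq_true, Bool.and_eq_true] at hx2
  rcases hx2 with ⟨e1, e2⟩ | ⟨e1, e2⟩
  · have f1 : x.1 = u.val := Nat.eq_of_beq_eq_true e1
    have f2 : x.2.1 = v.val := Nat.eq_of_beq_eq_true e2
    have g1 : (⟨x.1, ha⟩ : Fin 90) = u := Fin.ext f1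
    have g2 : (⟨x.2.1, hb⟩ : Fin 90) = v := Fin.ext f2
    exact three_of_cross X x.1 x.2.1 ha hb _ _ o3 o4 o5 o6 o7 o8 (by rw [g1]; exact hu)
      (by rw [g2]; exact hv)
  · -- the certificate is for the pair `v u`: use the complement
    have f1 : x.1 = v.val := Nat.eq_of_beq_eq_true e1
    have f2 : x.2.1 = u.val := Nat.eq_of_beq_eq_true e2
    have g1 : (⟨x.1, ha⟩ : Fin 90) = v := Fin.ext f1
    have g2 : (⟨x.2.1, hb⟩ : Fin 90) = u := Fin.ext f2
    have := three_of_cross Xᶜ x.1 x.2.1 ha hb _ _ o3 o4 o5 o6 o7 o8 (by rw [g1]; exact hv)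
      (by rw [g2]; exact fun h => h hu)
    rw [compl_compl] at this
    refine le_trans this (Set.ncard_le_ncard ?_ (Set.toFinite _))
    rintro e ⟨he, a, ha', b, hb', rfl⟩
    exact ⟨he, b, hb', a, ha', Sym2.eq_swap⟩

/-! ### The cycle cover of length 180 -/

/-- fifteen cycles -/
def cyc : List (List (Fin 90)) :=
  [[4, 6, 1, 0, 9, 14, 17, 12, 18, 19, 24, 22, 63, 64, 65, 66, 48, 47, 46, 45], [32, 34, 29, 28,
   33, 35], [41, 43, 38, 37, 42, 44], [59, 61, 56, 55, 60, 62], [77, 79, 74, 73, 78, 80], [86, 88,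
   83, 82, 87, 89], [67, 85, 87, 82, 81, 40, 42, 37, 36, 3, 8, 5, 0, 9, 10, 15, 13, 54, 59, 62, 57,
   76, 78, 80, 75, 49, 51, 53, 48, 66, 71, 69], [23, 25, 20, 19, 24, 26], [30, 39, 44, 41, 36, 3,
   2, 7, 4, 45, 50, 52, 49, 75, 74, 73, 72, 31, 33, 35], [14, 16, 11, 10, 15, 17], [68, 70, 65, 64,
   69, 71], [30, 39, 38, 43, 40, 81, 86, 89, 84, 58, 60, 55, 54, 13, 16, 11, 12, 18, 23, 26, 21,
   27, 28, 29], [5, 7, 2, 1, 6, 8], [50, 52, 47, 46, 51, 53], [67, 85, 88, 83, 84, 58, 61, 56, 57,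
   76, 79, 77, 72, 31, 34, 32, 27, 21, 20, 25, 22, 63, 68, 70]]

/-- boolean form of `List.IsChain G.Adj` -/
def chainB : List (Fin 90) → Bool
  | a :: b :: l => adj a.val b.val && chainB (b :: l)
  | _ => true

lemma chainB_ok : ∀ l : List (Fin 90), chainB l = true → List.IsChain G.Adj l
  | [], _ => List.IsChain.nil
  | [a], _ => List.IsChain.singleton a
  | a :: b :: l, h => by
    simp only [chainB, Bool.and_eq_true] at h
    exact List.isChain_cons_cons.2 ⟨h.1, chainB_ok (b :: l) h.2⟩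

/-- boolean form of `Good` -/
def goodB : List (Fin 90) → Bool
  | a :: b :: l => nmem a.val ((b :: l).map Fin.val) && chainB (a :: b :: (l ++ [a])) &&
      decide (l ≠ []) && decide ((b :: l).Nodup)
  | _ => false

lemma goodB_ok (l : List (Fin 90)) (h : goodB l = true) : Good G l := by
  match l, h with
  | a :: b :: l, h =>
    simp only [goodB, Bool.and_eq_true, decide_eq_true_eq] at h
    obtain ⟨⟨⟨h1, h2⟩, h3⟩, h4⟩ := h
    refine ⟨h4, ?_, h3, chainB_ok _ h2⟩
    intro hm
    rw [nmem_iff] at h1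
    exact h1 (List.mem_map_of_mem hm)

lemma cyc_good : cyc.all goodB = true := by decide +kernel

/-- codes of consecutive pairs -/
def codesF : List (Fin 90) → List ℕ
  | a :: b :: l => code a.val b.val :: codesF (b :: l)
  | _ => []

/-- codes of all edges of the cycles -/
def allCodes : List ℕ := cyc.flatMap fun l => codesF (l ++ l.take 1)

lemma cyc_cover : ∀ u v : Fin 90, adj u.val v.val = true → nmem (code u.val v.val) allCodes = false := by
  decide +kernel

lemma code_eq (a b c d : Fin 90) (h : code a.val b.val = code c.val d.val) : s(a, b) = s(c, d) := by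
  have ha := a.isLt
  have hb := b.isLt
  have hc := c.isLt
  have hd := d.isLt
  have h1 : ∀ x y : ℕ, code x y = if x ≤ y then 90 * x + y else 90 * y + x := by
    intro x y
    unfold code
    by_cases hxy : x ≤ y
    · rw [if_pos hxy, Nat.ble_eq_true_of_le hxy]; rfl
    · rw [if_neg hxy]
      have : Nat.ble x y = false := by
        rw [Bool.eq_false_iff]
        intro h'
        exact hxy (Nat.le_of_ble_eq_true h')
      rw [this]; rfl
  rw [h1, h1] at h
  rw [Sym2.eq_iff]
  split_ifs at h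
  · left; constructor <;> (apply Fin.ext; omega)
  · right; constructor <;> (apply Fin.ext; omega)
  · right; constructor <;> (apply Fin.ext; omega)
  · left; constructor <;> (apply Fin.ext; omega)

lemma mem_codesF (u v : Fin 90) : ∀ l : List (Fin 90), code u.val v.val ∈ codesF l →
    s(u, v) ∈ pairsOf l
  | [], h => by simp [codesF] at h
  | [a], h => by simp [codesF] at h
  | a :: b :: l, h => by
    rw [codesF, List.mem_cons] at h
    rw [pairsOf, List.mem_cons]
    rcases h with h | h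
    · exact Or.inl (code_eq _ _ _ _ h)
    · exact Or.inr (mem_codesF u v (b :: l) h)

lemma cyc_length : (cyc.map List.length).sum = 180 := by decide +kernel

lemma exists_cover : ∃ F : List (Σ u : Fin 90, G.Walk u u), IsCycleCover G F ∧
    180 = (F.map fun c => c.2.length).sum := by
  obtain ⟨F, h1, h2, h3⟩ := exists_family G cyc
    (fun l hl => goodB_ok l (List.all_eq_true.1 cyc_good l hl))
  refine ⟨F, ⟨h1, ?_⟩, by rw [h2, cyc_length]⟩
  intro e he
  induction e with
  | _ u v =>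
    have h4 := cyc_cover u v he
    have h5 : code u.val v.val ∈ allCodes := by
      by_contra hno
      rw [← nmem_iff, h4] at hno
      exact absurd hno (by simp)
    rw [allCodes, List.mem_flatMap] at h5
    obtain ⟨l, hl, hl2⟩ := h5
    exact h3 l hl _ (mem_codesF u v _ hl2)

theorem scc_G : scc G = 180 := by
  apply le_antisymm
  · exact Nat.sInf_le exists_cover
  · obtain ⟨F, hF⟩ := exists_cover
    refine le_csInf ⟨180, F, hF⟩ ?_
    rintro l ⟨F', hF', rfl⟩
    have := cover_length G_cubic F' hF'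
    simpa using this

/-! ### No four perfect matchings cover the edges -/

/-- number of a local edge: the three local edges at the vertex `w` of a copy; edges 0, ..., 11 are
the inner edges, edges 12, 13, 14 are the edges leaving the copy -/
def locN (w k : ℕ) : ℕ := [1, 2, 12, 1, 4, 5, 4, 7, 8, 7, 10, 13, 0, 9, 14, 2, 3, 11, 0, 5, 6, 3, 8, 9,
  6, 10, 11].getD (3 * w + k) 0

/-- the three edges of the Petersen graph at the vertex `i` -/
def slotN (i k : ℕ) : ℕ := [0, 12, 1, 0, 3, 4, 3, 6, 7, 6, 9, 10, 12, 9, 13, 1, 2, 11, 4, 5, 14, 7, 2, 8,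
  10, 11, 5, 13, 14, 8].getD (3 * i + k) 0

/-- exactly one of three booleans is true -/
def one (a b c : Bool) : Bool := (a && !b && !c) || (!a && b && !c) || (!a && !b && c)

/-- the mask satisfies the matching condition at the nine vertices of a copy -/
def okMask (m : ℕ) : Bool := (List.range 9).all fun w =>
  one (m.testBit (locN w 0)) (m.testBit (locN w 1)) (m.testBit (locN w 2))

/-- the eight masks with `okMask` -/
def l8 : List ℕ := [5145, 6816, 8788, 10499, 16586, 17700, 28760, 31008]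

/-- `p` holds for all numbers whose leading digits are `m`, with `k` further binary digits -/
def allBits (p : ℕ → Bool) : ℕ → ℕ → Bool
  | 0, m => p m
  | k + 1, m => allBits p k (2 * m) && allBits p k (2 * m + 1)

lemma allBits_get {p : ℕ → Bool} : ∀ {k m : ℕ}, allBits p k m = true →
    ∀ x, x / 2 ^ k = m → p x = true
  | 0, m, h, x, hx => by
    simp only [allBits] at h
    simp only [pow_zero, Nat.div_one] at hx
    rw [hx]; exact h
  | k + 1, m, h, x, hx => by
    simp only [allBits, Bool.and_eq_true] at h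
    have h1 : x / 2 ^ k / 2 = m := by rw [Nat.div_div_eq_div_mul, ← pow_succ]; exact hx
    rcases Nat.mod_two_eq_zero_or_one (x / 2 ^ k) with h2 | h2
    · exact allBits_get h.1 x (by omega)
    · exact allBits_get h.2 x (by omega)

/-- membership of a masked number in a list of three numbers -/
def g3 (m u x y z : ℕ) : Bool :=
  Nat.beq (Nat.land m u) x || (Nat.beq (Nat.land m u) y || Nat.beq (Nat.land m u) z)

/-- membership of a masked number in a list of four numbers -/
def g4 (m u w x y z : ℕ) : Bool :=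
  Nat.beq (Nat.land m u) w || (Nat.beq (Nat.land m u) x ||
    (Nat.beq (Nat.land m u) y || Nat.beq (Nat.land m u) z))

lemma land_three (m a b c : ℕ) : Nat.land m (2 ^ a ||| 2 ^ b ||| 2 ^ c) =
    (bif m.testBit a then 2 ^ a else 0) ||| (bif m.testBit b then 2 ^ b else 0) |||
      (bif m.testBit c then 2 ^ c else 0) := by
  show m &&& (2 ^ a ||| 2 ^ b ||| 2 ^ c) = _
  have hbif : ∀ (x : ℕ) (i : ℕ), (bif m.testBit x then 2 ^ x else 0).testBit i =
      (m.testBit x && decide (x = i)) := by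
    intro x i
    cases m.testBit x
    · simp
    · simp [Nat.testBit_two_pow]
  apply Nat.eq_of_testBit_eq
  intro i
  rw [Nat.testBit_and, Nat.testBit_or, Nat.testBit_or, Nat.testBit_or, Nat.testBit_or, hbif, hbif,
    hbif, Nat.testBit_two_pow, Nat.testBit_two_pow, Nat.testBit_two_pow]
  by_cases h1 : a = i
  · subst h1
    cases h : m.testBit a
    · have e1 : (m.testBit b && decide (b = a)) = false := by
        by_cases hb : b = a
        · rw [hb, h]; rfl
        · simp [hb]
      have e2 : (m.testBit c && decide (c = a)) = false := by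
        by_cases hc : c = a
        · rw [hc, h]; rfl
        · simp [hc]
      rw [e1, e2]
      simp
    · simp
  · by_cases h2 : b = i
    · subst h2
      cases h : m.testBit b
      · have e2 : (m.testBit c && decide (c = b)) = false := by
          by_cases hc : c = b
          · rw [hc, h]; rfl
          · simp [hc]
        rw [e2]
        simp [h1]
      · simp
    · by_cases h3 : c = i
      · subst h3
        simp [h1, h2]
      · simp [h1, h2, h3]

lemma g3_of {m a b c : ℕ} (h : one (m.testBit a) (m.testBit b) (m.testBit c) = true) :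
    g3 m (2 ^ a ||| 2 ^ b ||| 2 ^ c) (2 ^ a) (2 ^ b) (2 ^ c) = true := by
  unfold g3
  rw [land_three]
  revert h
  cases m.testBit a <;> cases m.testBit b <;> cases m.testBit c <;> simp [one, Nat.beq_refl]

lemma g4_of {m a b c : ℕ} (h : (!(xor (m.testBit a) (xor (m.testBit b) (m.testBit c)))) = true) :
    g4 m (2 ^ a ||| 2 ^ b ||| 2 ^ c) 0 (2 ^ a ||| 2 ^ b) (2 ^ a ||| 2 ^ c) (2 ^ b ||| 2 ^ c) =
      true := by
  unfold g4
  rw [land_three]
  revert h
  cases m.testBit a <;> cases m.testBit b <;> cases m.testBit c <;> simp [Nat.beq_refl]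

/-- `okMask` in explicit form -/
def okFast (m : ℕ) : Bool := g3 m 4102 2 4 4096 && (g3 m 50 2 16 32 && (g3 m 400 16 128 256 && (g3 m 9344 128 1024 8192 &&
   (g3 m 16897 1 512 16384 && (g3 m 2060 4 8 2048 && (g3 m 97 1 32 64 && (g3 m 776 8 256 512 && (g3
   m 3136 64 1024 2048))))))))

lemma okFast_of {m : ℕ} (h : okMask m = true) : okFast m = true := by
  unfold okMask at h
  rw [List.all_eq_true] at h
  have hw : ∀ w < 9, one (m.testBit (locN w 0)) (m.testBit (locN w 1)) (m.testBit (locN w 2)) = true :=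
    fun w hw => h w (List.mem_range.2 hw)
  unfold okFast
  simp only [Bool.and_eq_true]
  exact ⟨g3_of (hw 0 (by norm_num)), g3_of (hw 1 (by norm_num)), g3_of (hw 2 (by norm_num)), g3_of (hw 3 (by norm_num)), g3_of (hw 4 (by norm_num)), g3_of (hw 5 (by norm_num)), g3_of (hw 6 (by norm_num)), g3_of (hw 7 (by norm_num)), g3_of (hw 8 (by norm_num))⟩

lemma masks : allBits (fun m => !(okFast m && nmem m l8)) 15 0 = true := by decide +kernel

lemma mask_mem (m : ℕ) (hm : m < 2 ^ 15) (h : okMask m = true) : m ∈ l8 := by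
  have := allBits_get masks m (Nat.div_eq_of_lt hm)
  rw [okFast_of h] at this
  by_contra hno
  rw [← nmem_iff] at hno
  rw [hno] at this
  exact absurd this (by decide)

/-- the conclusion for the three edges leaving a copy -/
def concl (a b c : ℕ) : Bool :=
  ((a ^^^ b).testBit 12 || (a ^^^ c).testBit 12) && ((a ^^^ b).testBit 13 || (a ^^^ c).testBit 13) &&
    ((a ^^^ b).testBit 14 || (a ^^^ c).testBit 14) &&
    !(xor ((a ^^^ b).testBit 12) (xor ((a ^^^ b).testBit 13) ((a ^^^ b).testBit 14))) &&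
    !(xor ((a ^^^ c).testBit 12) (xor ((a ^^^ c).testBit 13) ((a ^^^ c).testBit 14)))

lemma four_masks : (l8.all fun a => l8.all fun b => l8.all fun c => l8.all fun d =>
    !(Nat.beq (a ||| b ||| c ||| d) 32767) || concl a b c) = true := by decide +kernel

/-- even subgraphs of the Petersen graph -/
def okEven (m : ℕ) : Bool := (List.range 10).all fun i =>
  !(xor (m.testBit (slotN i 0)) (xor (m.testBit (slotN i 1)) (m.testBit (slotN i 2))))

/-- the even subgraphs of the Petersen graph, as a list -/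
def evens : List ℕ := [0, 143, 1144, 1271, 2099, 2236, 3147, 3268, 4681, 4806, 5681, 5822, 6778, 6901, 7682, 7821,
   9039, 9152, 10039, 10168, 11132, 11251, 12036, 12171, 12550, 12681, 13694, 13809, 14645, 14778,
   15693, 15810, 16663, 16792, 17775, 17888, 18724, 18859, 19804, 19923, 21342, 21457, 22310,
   22441, 23405, 23522, 24341, 24474, 25176, 25303, 26144, 26287, 27243, 27364, 28179, 28316,
   28689, 28830, 29801, 29926, 30754, 30893, 31834, 31957]

/-- `okEven` in explicit form -/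
def evFast (m : ℕ) : Bool := g4 m 4099 0 4097 3 4098 && (g4 m 25 0 9 17 24 && (g4 m 200 0 72 136 192 && (g4 m 1600 0 576 1088
   1536 && (g4 m 12800 0 4608 12288 8704 && (g4 m 2054 0 6 2050 2052 && (g4 m 16432 0 48 16400
   16416 && (g4 m 388 0 132 384 260 && (g4 m 3104 0 3072 1056 2080 && (g4 m 24832 0 24576 8448
   16640)))))))))

lemma evFast_of {m : ℕ} (h : okEven m = true) : evFast m = true := by
  unfold okEven at h
  rw [List.all_eq_true] at h
  have hw : ∀ i < 10, (!(xor (m.testBit (slotN i 0)) (xor (m.testBit (slotN i 1))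
      (m.testBit (slotN i 2))))) = true :=
    fun i hi => h i (List.mem_range.2 hi)
  unfold evFast
  simp only [Bool.and_eq_true]
  exact ⟨g4_of (hw 0 (by norm_num)), g4_of (hw 1 (by norm_num)), g4_of (hw 2 (by norm_num)), g4_of (hw 3 (by norm_num)), g4_of (hw 4 (by norm_num)), g4_of (hw 5 (by norm_num)), g4_of (hw 6 (by norm_num)), g4_of (hw 7 (by norm_num)), g4_of (hw 8 (by norm_num)), g4_of (hw 9 (by norm_num))⟩

lemma evens_all : allBits (fun m => !(evFast m && nmem m evens)) 15 0 = true := by decide +kernel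

lemma evens_mem (m : ℕ) (hm : m < 2 ^ 15) (h : okEven m = true) : m ∈ evens := by
  have := allBits_get evens_all m (Nat.div_eq_of_lt hm)
  rw [evFast_of h] at this
  by_contra hno
  rw [← nmem_iff] at hno
  rw [hno] at this
  exact absurd this (by decide)

lemma no_flow : (evens.all fun a => evens.all fun b => !(Nat.beq (a ||| b) 32767)) = true := by
  decide +kernel

/-- a vertex of `G` given by a number -/
def vx (n : ℕ) : Fin 90 := Fin.ofNat 90 n

/-- the edges of `G` between different copies, one for each edge of the Petersen graph -/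
def Ec (c : ℕ) : Sym2 (Fin 90) :=
  s(vx ([0, 4, 48, 12, 13, 57, 21, 22, 67, 30, 31, 49, 3, 40, 58].getD c 0),
    vx ([9, 45, 66, 18, 54, 76, 27, 63, 85, 39, 72, 75, 36, 81, 84].getD c 0))

/-- the local edges of the copy `i` -/
def E (i t : ℕ) : Sym2 (Fin 90) :=
  if t < 12 then s(vx (9 * i + [4, 0, 0, 5, 1, 1, 6, 2, 2, 4, 3, 5].getD t 0), vx (9 * i + [6, 1, 5, 7, 2, 6, 8, 3, 7, 7, 8, 8].getD t 0))
  else Ec (slotN i (t - 12))

/-- the other end of the `k`-th local edge at the vertex `w` of the copy `i` -/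
def oth (i w k : ℕ) : Fin 90 :=
  vx ([1, 5, 9, 0, 2, 6, 1, 3, 7, 2, 8, 36, 6, 7, 45, 0, 7, 8, 4, 1, 8, 5, 2, 4, 6, 3, 5, 10, 14, 0,
   9, 11, 15, 10, 12, 16, 11, 17, 18, 15, 16, 54, 9, 16, 17, 13, 10, 17, 14, 11, 13, 15, 12, 14,
   19, 23, 12, 18, 20, 24, 19, 21, 25, 20, 26, 27, 24, 25, 63, 18, 25, 26, 22, 19, 26, 23, 20, 22,
   24, 21, 23, 28, 32, 21, 27, 29, 33, 28, 30, 34, 29, 35, 39, 33, 34, 72, 27, 34, 35, 31, 28, 35,
   32, 29, 31, 33, 30, 32, 37, 41, 3, 36, 38, 42, 37, 39, 43, 38, 44, 30, 42, 43, 81, 36, 43, 44,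
   40, 37, 44, 41, 38, 40, 42, 39, 41, 46, 50, 4, 45, 47, 51, 46, 48, 52, 47, 53, 66, 51, 52, 75,
   45, 52, 53, 49, 46, 53, 50, 47, 49, 51, 48, 50, 55, 59, 13, 54, 56, 60, 55, 57, 61, 56, 62, 76,
   60, 61, 84, 54, 61, 62, 58, 55, 62, 59, 56, 58, 60, 57, 59, 64, 68, 22, 63, 65, 69, 64, 66, 70,
   65, 71, 48, 69, 70, 85, 63, 70, 71, 67, 64, 71, 68, 65, 67, 69, 66, 68, 73, 77, 31, 72, 74, 78,
   73, 75, 79, 74, 80, 49, 78, 79, 57, 72, 79, 80, 76, 73, 80, 77, 74, 76, 78, 75, 77, 82, 86, 40,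
   81, 83, 87, 82, 84, 88, 83, 89, 58, 87, 88, 67, 81, 88, 89, 85, 82, 89, 86, 83, 85, 87, 84, 86].getD (27 * i + 3 * w + k) 0)

lemma E_eq : ∀ (i : Fin 10) (w : Fin 9) (k : Fin 3),
    E i.val (locN w.val k.val) = s(vx (9 * i.val + w.val), oth i.val w.val k.val) := by
  decide +kernel

lemma oth_adj : ∀ (i : Fin 10) (w : Fin 9) (u : Fin 90),
    adj (9 * i.val + w.val) u.val = true → u = oth i.val w.val 0 ∨ u = oth i.val w.val 1 ∨
      u = oth i.val w.val 2 := by
  decide +kernel

lemma oth_ne : ∀ (i : Fin 10) (w : Fin 9), oth i.val w.val 0 ≠ oth i.val w.val 1 ∧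
    oth i.val w.val 0 ≠ oth i.val w.val 2 ∧ oth i.val w.val 1 ≠ oth i.val w.val 2 := by
  decide +kernel

lemma E_mem : ∀ (i : Fin 10) (t : Fin 15), E i.val t.val ∈ G.edgeSet := by decide +kernel

lemma loc_lt : ∀ (w : Fin 9) (k : Fin 3), locN w.val k.val < 15 := by decide +kernel

lemma slot_lt : ∀ (i : Fin 10) (k : Fin 3), slotN i.val k.val < 15 := by decide +kernel

lemma slot_all : ∀ c : Fin 15, ∃ (i : Fin 10) (k : Fin 3), slotN i.val k.val = c.val := by
  decide +kernel

lemma vx_val (v : Fin 90) : vx v.val = v := by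
  unfold vx
  ext
  simp [Fin.ofNat, Nat.mod_eq_of_lt v.isLt]

open Classical in
lemma exactly_one (M : Set (Sym2 (Fin 90))) (hM : IsPerfectMatching G M) (i : Fin 10) (w : Fin 9) :
    one (decide (E i.val (locN w.val 0) ∈ M)) (decide (E i.val (locN w.val 1) ∈ M))
      (decide (E i.val (locN w.val 2) ∈ M)) = true := by
  have e0 := E_eq i w 0
  have e1 := E_eq i w 1
  have e2 := E_eq i w 2
  simp only [Fin.val_zero, Fin.val_one, Fin.val_two] at e0 e1 e2
  rw [e0, e1, e2]
  obtain ⟨n01, n02, n12⟩ := oth_ne i w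
  set v : Fin 90 := vx (9 * i.val + w.val) with hv
  have hvv : v.val = 9 * i.val + w.val := by
    rw [hv]
    unfold vx
    simp only [Fin.ofNat]
    exact Nat.mod_eq_of_lt (by have := i.isLt; have := w.isLt; omega)
  obtain ⟨e, ⟨he, hve⟩, huniq⟩ := hM.2 v
  obtain ⟨u, rfl⟩ := Sym2.mem_iff_exists.1 hve
  have hadj : G.Adj v u := hM.1 he
  have hadj' : adj (9 * i.val + w.val) u.val = true := by rw [← hvv]; exact hadj
  have key : ∀ o : Fin 90, s(v, o) ∈ M → o = u := by
    intro o ho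
    have := huniq s(v, o) ⟨ho, Sym2.mem_mk_left v o⟩
    rw [Sym2.eq_iff] at this
    rcases this with ⟨_, h⟩ | ⟨h1, h2⟩
    · exact h
    · rw [h2, h1]
  unfold one
  rcases oth_adj i w u hadj' with h | h | h
  · have a1 : s(v, oth i.val w.val 0) ∈ M := h ▸ he
    have a2 : s(v, oth i.val w.val 1) ∉ M := fun h' => n01 (by rw [key _ h', h])
    have a3 : s(v, oth i.val w.val 2) ∉ M := fun h' => n02 (by rw [key _ h', h])
    simp [a1, a2, a3]
  · have a1 : s(v, oth i.val w.val 0) ∉ M := fun h' => n01 (by rw [key _ h', h])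
    have a2 : s(v, oth i.val w.val 1) ∈ M := h ▸ he
    have a3 : s(v, oth i.val w.val 2) ∉ M := fun h' => n12 (by rw [key _ h', h])
    simp [a1, a2, a3]
  · have a1 : s(v, oth i.val w.val 0) ∉ M := fun h' => n02 (by rw [key _ h', h])
    have a2 : s(v, oth i.val w.val 1) ∉ M := fun h' => n12 (by rw [key _ h', h])
    have a3 : s(v, oth i.val w.val 2) ∈ M := h ▸ he
    simp [a1, a2, a3]

open Classical in
/-- the local edges of the copy `i` in `M`, as a mask -/
noncomputable def mk (M : Set (Sym2 (Fin 90))) (i : ℕ) : ℕ :=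
  Nat.ofBits (fun t : Fin 15 => decide (E i t.val ∈ M))

open Classical in
lemma mk_bit (M : Set (Sym2 (Fin 90))) (i t : ℕ) (ht : t < 15) :
    (mk M i).testBit t = decide (E i t ∈ M) := by
  unfold mk
  rw [Nat.testBit_ofBits_lt _ _ ht]

lemma mk_l8 (M : Set (Sym2 (Fin 90))) (hM : IsPerfectMatching G M) (i : Fin 10) :
    mk M i.val ∈ l8 := by
  classical
  refine mask_mem _ (Nat.ofBits_lt_two_pow _) ?_
  unfold okMask
  rw [List.all_eq_true]
  intro w hw
  have hw' : w < 9 := List.mem_range.1 hw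
  have := exactly_one M hM i ⟨w, hw'⟩
  have l0 := loc_lt ⟨w, hw'⟩ 0
  have l1 := loc_lt ⟨w, hw'⟩ 1
  have l2 := loc_lt ⟨w, hw'⟩ 2
  simp only [Fin.val_zero, Fin.val_one, Fin.val_two] at l0 l1 l2
  rw [mk_bit M i.val _ l0, mk_bit M i.val _ l1, mk_bit M i.val _ l2]
  convert this

theorem not_four : ¬ FourCoverable G := by
  classical
  rintro ⟨M, hM, hcov⟩
  -- the four masks of a copy
  have hconcl : ∀ i : Fin 10, concl (mk (M 0) i.val) (mk (M 1) i.val) (mk (M 2) i.val) = true := by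
    intro i
    have h := four_masks
    rw [List.all_eq_true] at h
    have h := h _ (mk_l8 (M 0) (hM 0) i)
    rw [List.all_eq_true] at h
    have h := h _ (mk_l8 (M 1) (hM 1) i)
    rw [List.all_eq_true] at h
    have h := h _ (mk_l8 (M 2) (hM 2) i)
    rw [List.all_eq_true] at h
    have h := h _ (mk_l8 (M 3) (hM 3) i)
    have hfull : mk (M 0) i.val ||| mk (M 1) i.val ||| mk (M 2) i.val ||| mk (M 3) i.val = 32767 := by
      apply Nat.eq_of_testBit_eq
      intro t
      rw [show (32767 : ℕ) = 2 ^ 15 - 1 by norm_num, Nat.testBit_two_pow_sub_one]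
      rw [Nat.testBit_or, Nat.testBit_or, Nat.testBit_or]
      by_cases ht : t < 15
      · rw [mk_bit _ _ _ ht, mk_bit _ _ _ ht, mk_bit _ _ _ ht, mk_bit _ _ _ ht]
        obtain ⟨j, hj⟩ := hcov _ (E_mem i ⟨t, ht⟩)
        have hj' : E i.val t ∈ M j := hj
        fin_cases j <;> simp_all
      · have hb : ∀ j : Fin 4, (mk (M j) i.val).testBit t = false := by
          intro j
          unfold mk
          exact Nat.testBit_ofBits_ge _ _ (by omega)
        rw [hb 0, hb 1, hb 2, hb 3]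
        simp [ht]
    rw [hfull] at h
    simpa using h
  -- a nowhere-zero flow of the Petersen graph
  let A : ℕ := Nat.ofBits (fun c : Fin 15 => xor (decide (Ec c.val ∈ M 0)) (decide (Ec c.val ∈ M 1)))
  let B : ℕ := Nat.ofBits (fun c : Fin 15 => xor (decide (Ec c.val ∈ M 0)) (decide (Ec c.val ∈ M 2)))
  have hA : ∀ c < 15, A.testBit c = xor (decide (Ec c ∈ M 0)) (decide (Ec c ∈ M 1)) := by
    intro c hc
    exact Nat.testBit_ofBits_lt _ _ hc
  have hB : ∀ c < 15, B.testBit c = xor (decide (Ec c ∈ M 0)) (decide (Ec c ∈ M 2)) := by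
    intro c hc
    exact Nat.testBit_ofBits_lt _ _ hc
  have hE : ∀ (i : ℕ) (k : ℕ), E i (12 + k) = Ec (slotN i k) := by
    intro i k
    unfold E
    rw [if_neg (by omega), Nat.add_sub_cancel_left]
  have hxA : ∀ (i : Fin 10) (k : Fin 3), (mk (M 0) i.val ^^^ mk (M 1) i.val).testBit (12 + k.val) =
      A.testBit (slotN i.val k.val) := by
    intro i k
    have hk := k.isLt
    rw [Nat.testBit_xor, mk_bit _ _ _ (by omega), mk_bit _ _ _ (by omega), hE,
      hA _ (slot_lt i k)]
  have hxB : ∀ (i : Fin 10) (k : Fin 3), (mk (M 0) i.val ^^^ mk (M 2) i.val).testBit (12 + k.val) =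
      B.testBit (slotN i.val k.val) := by
    intro i k
    have hk := k.isLt
    rw [Nat.testBit_xor, mk_bit _ _ _ (by omega), mk_bit _ _ _ (by omega), hE,
      hB _ (slot_lt i k)]
  have hc : ∀ i : Fin 10, ((A.testBit (slotN i.val 0) || B.testBit (slotN i.val 0)) = true ∧
      (A.testBit (slotN i.val 1) || B.testBit (slotN i.val 1)) = true ∧
      (A.testBit (slotN i.val 2) || B.testBit (slotN i.val 2)) = true) ∧
      (!(xor (A.testBit (slotN i.val 0)) (xor (A.testBit (slotN i.val 1))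
        (A.testBit (slotN i.val 2))))) = true ∧
      (!(xor (B.testBit (slotN i.val 0)) (xor (B.testBit (slotN i.val 1))
        (B.testBit (slotN i.val 2))))) = true := by
    intro i
    have h := hconcl i
    have a0 := hxA i 0
    have a1 := hxA i 1
    have a2 := hxA i 2
    have b0 := hxB i 0
    have b1 := hxB i 1
    have b2 := hxB i 2
    simp only [Fin.val_zero, Fin.val_one, Fin.val_two, Nat.add_zero] at a0 a1 a2 b0 b1 b2
    unfold concl at h
    rw [a0, show (13 : ℕ) = 12 + 1 from rfl, a1, show (14 : ℕ) = 12 + 2 from rfl, a2, b0, b1, b2] at h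
    simp only [Bool.and_eq_true] at h
    obtain ⟨⟨⟨⟨h1, h2⟩, h3⟩, h4⟩, h5⟩ := h
    exact ⟨⟨h1, h2, h3⟩, h4, h5⟩
  have hAev : A ∈ evens := by
    refine evens_mem _ (Nat.ofBits_lt_two_pow _) ?_
    unfold okEven
    rw [List.all_eq_true]
    intro i hi
    exact (hc ⟨i, List.mem_range.1 hi⟩).2.1
  have hBev : B ∈ evens := by
    refine evens_mem _ (Nat.ofBits_lt_two_pow _) ?_
    unfold okEven
    rw [List.all_eq_true]
    intro i hi
    exact (hc ⟨i, List.mem_range.1 hi⟩).2.2
  have hfull : A ||| B = 32767 := by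
    apply Nat.eq_of_testBit_eq
    intro t
    rw [show (32767 : ℕ) = 2 ^ 15 - 1 by norm_num, Nat.testBit_two_pow_sub_one, Nat.testBit_or]
    by_cases ht : t < 15
    · obtain ⟨i, k, hik⟩ := slot_all ⟨t, ht⟩
      have hik' : slotN i.val k.val = t := hik
      obtain ⟨⟨h0, h1, h2⟩, _⟩ := hc i
      have : (A.testBit t || B.testBit t) = true := by
        rw [← hik']
        fin_cases k
        · exact h0
        · exact h1
        · exact h2
      rw [this]
      simp [ht]
    · have h1 : A.testBit t = false := Nat.testBit_ofBits_ge _ _ (by omega)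
      have h2 : B.testBit t = false := Nat.testBit_ofBits_ge _ _ (by omega)
      rw [h1, h2]
      simp [ht]
  have h := no_flow
  rw [List.all_eq_true] at h
  have h := h A hAev
  rw [List.all_eq_true] at h
  have h := h B hBev
  rw [hfull] at h
  exact absurd h (by decide)

/-- **Q1 is false.** There is a 3-edge-connected cubic graph `G` (with 90 vertices) with
`scc(G) = (4/3) |E(G)|` that cannot be covered by four perfect matchings, so that `T(G) ≥ 1` and
`scc(G) < (4/3) |E(G)| + T(G)`. -/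
theorem result : ∃ (V : Type) (_ : Fintype V) (G : SimpleGraph V),
    Fintype.card V = 90 ∧ IsCubic G ∧ ThreeEdgeConnected G ∧
    3 * scc G = 4 * G.edgeSet.ncard ∧ ¬ FourCoverable G ∧
    ((3 * scc G : ℕ) : ℕ∞) < 4 * (G.edgeSet.ncard : ℕ∞) + 3 * T G := by
  refine ⟨Fin 90, inferInstance, G, by simp, G_cubic, G_conn, ?_, not_four, ?_⟩
  · rw [scc_G, G_edges]
  · rw [scc_G, G_edges]
    have h := one_le_T not_four
    have h1 : (3 : ℕ∞) * 1 ≤ 3 * T G := by gcongr
    calc ((3 * 180 : ℕ) : ℕ∞) < 4 * ((135 : ℕ) : ℕ∞) + 3 * 1 := by norm_cast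
      _ ≤ 4 * ((135 : ℕ) : ℕ∞) + 3 * T G := by gcongr

end Pool.Agent.Results.MP_961c17_co.ReplacedPetersen
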